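import Pool.Agent.Helper20.EQ.St3

/-!
# Project EQ (MP_cb927e_an), module FWC: few hits in one class
-/

set_option autoImplicit false

open MeasureTheory Set Filter Topology
open scoped ENNReal RealInnerProductSpace

namespace Pool.Agent.Helper30.EQ

open Pool.Agent.Helper20.RG Pool.Agent.Helper20.EQ
open Pool.Agent.Helper68.LM (Pl BB Bd Av HL ft fm DQ)
open Pool.Agent.Helper68.EP (elt GapP)

private theorem meas_sup_FWC (S : Finset ℕ) (f : ℕ → Pl → ℝ≥0∞)
    (hf : ∀ i ∈ S, Measurable (f i)) : Measurable (fun x => S.sup (fun i => f i x)) := by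
  induction S using Finset.induction_on with
  | empty => simp only [Finset.sup_empty]; exact measurable_const
  | insert a S _ ih =>
    simp only [Finset.sup_insert]
    exact (hf a (Finset.mem_insert_self a S)).sup
      (ih fun i hi => hf i (Finset.mem_insert_of_mem hi))

private theorem meas_Z_FWC (hYB : StYB) {s : ℝ} (hs : |s| ≤ 1) (c : Pl) (m m' : ℕ) {l : ℝ}
    (hl : 0 < l) (k : ℤ) {g : Pl → ℝ} (hg : BB g) : Measurable (Z s c m m' l k g) := by
  have h1 : Measurable (Y s c m l k g) := (hYB s c m l k g hs hl hg).1.1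
  have h2 : Measurable (Y s c m' l k g) := (hYB s c m' l k g hs hl hg).1.1
  exact h1.sub h2

private theorem meas_MD_FWC (hYB : StYB) {s : ℝ} (hs : |s| ≤ 1) (c : Pl) (m m' V : ℕ)
    (k : ℤ) {g : Pl → ℝ} (hg : BB g) : Measurable (MD s c m m' V k g) := by
  unfold MD
  refine meas_sup_FWC _ (fun w x =>
    ‖Z s c m m' ((2 : ℝ) ^ w) k g x - Z s c m m' ((2 : ℝ) ^ 0) k g x‖ₑ) ?_
  intro w _
  exact ((meas_Z_FWC hYB hs c m m' (by positivity) k hg).sub
    (meas_Z_FWC hYB hs c m m' (by positivity) k hg)).enorm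

/-- if no pair is far apart then there are few points -/
private theorem pair_FWC (P : Finset ℕ) (s : ℕ → ℝ) (W : ℕ → ℕ) (m : ℝ) (hm : 0 < m)
    (hP : m / 2 ≤ (P.card : ℝ))
    (hn : ∀ j ∈ P, ((P.filter (fun j' => |s j' - s j| ≤ (2 : ℝ) ^ (-((W j + 1 : ℕ) : ℤ)))).card : ℝ)
      < m / 8) :
    ∃ j ∈ P, ∃ j' ∈ P, (2 : ℝ) ^ (-((W j + 1 : ℕ) : ℤ)) < |s j' - s j| ∧
      (2 : ℝ) ^ (-((W j' + 1 : ℕ) : ℤ)) < |s j' - s j| := by
  classical
  by_contra hcon
  push Not at hcon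
  let A : ℕ → ℕ → Prop := fun j j' => |s j' - s j| ≤ (2 : ℝ) ^ (-((W j + 1 : ℕ) : ℤ))
  have hA : ∀ j ∈ P, ∀ j' ∈ P, (1 : ℝ) ≤ (if A j j' then 1 else 0) + (if A j' j then 1 else 0) := by
    intro j hj j' hj'
    by_cases h1 : A j j'
    · rw [if_pos h1]
      have : (0 : ℝ) ≤ (if A j' j then 1 else 0) := by split_ifs <;> norm_num
      linarith
    · have h2 : A j' j := by
        have h3 : (2 : ℝ) ^ (-((W j + 1 : ℕ) : ℤ)) < |s j' - s j| := not_le.mp h1
        have h4 := hcon j hj j' hj' h3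
        change |s j - s j'| ≤ (2 : ℝ) ^ (-((W j' + 1 : ℕ) : ℤ))
        rw [abs_sub_comm]
        exact h4
      rw [if_pos h2]
      have : (0 : ℝ) ≤ (if A j j' then 1 else 0) := by split_ifs <;> norm_num
      linarith
  have hne : P.Nonempty := by
    rw [← Finset.card_pos]
    have : (0 : ℝ) < (P.card : ℝ) := by linarith
    exact_mod_cast this
  have h1 : (P.card : ℝ) * P.card ≤
      (∑ j ∈ P, ∑ j' ∈ P, (if A j j' then (1 : ℝ) else 0)) +
        ∑ j ∈ P, ∑ j' ∈ P, (if A j' j then (1 : ℝ) else 0) := by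
    have e : (P.card : ℝ) * P.card = ∑ _j ∈ P, ∑ _j' ∈ P, (1 : ℝ) := by
      simp [Finset.sum_const, nsmul_eq_mul]
    rw [e, ← Finset.sum_add_distrib]
    refine Finset.sum_le_sum fun j hj => ?_
    rw [← Finset.sum_add_distrib]
    exact Finset.sum_le_sum fun j' hj' => hA j hj j' hj'
  have h2 : (∑ j ∈ P, ∑ j' ∈ P, (if A j' j then (1 : ℝ) else 0)) =
      ∑ j ∈ P, ∑ j' ∈ P, (if A j j' then (1 : ℝ) else 0) := Finset.sum_comm
  have h3 : (∑ j ∈ P, ∑ j' ∈ P, (if A j j' then (1 : ℝ) else 0)) < (P.card : ℝ) * (m / 8) := by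
    have e : (P.card : ℝ) * (m / 8) = ∑ _j ∈ P, m / 8 := by
      simp [Finset.sum_const, nsmul_eq_mul]
    rw [e]
    refine Finset.sum_lt_sum_of_nonempty hne fun j hj => ?_
    have := hn j hj
    rw [Finset.sum_ite, Finset.sum_const_zero, add_zero, Finset.sum_const, nsmul_eq_mul, mul_one]
    exact this
  rw [h2] at h1
  have h4 : (0 : ℝ) < (P.card : ℝ) := by
    exact_mod_cast Finset.card_pos.mpr hne
  nlinarith [mul_le_mul_of_nonneg_left hP h4.le]

private theorem Aa_le_FWC {s s' : ℝ} {W : ℕ} (h : (2 : ℝ) ^ (-((W + 1 : ℕ) : ℤ)) < |s - s'|) :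
    Aa s s' ≤ W + 1 := by
  unfold Aa
  rw [Nat.ceil_le]
  have h0 : (0 : ℝ) < (2 : ℝ) ^ (-((W + 1 : ℕ) : ℤ)) := by positivity
  have h1 : Real.logb 2 ((2 : ℝ) ^ (-((W + 1 : ℕ) : ℤ))) < Real.logb 2 |s - s'| :=
    Real.logb_lt_logb (by norm_num) h0 h
  rw [← Real.rpow_intCast, Real.logb_rpow (by norm_num) (by norm_num)] at h1
  push_cast at h1 ⊢
  linarith

private theorem loc_mono_FWC {C C' D : ℝ} (h : C ≤ C') {g : Pl → ℝ} {x : Pl}
    (hL : Loc C' D g x) : Loc C D g x := by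
  intro k
  refine le_trans (lintegral_mono_set ?_) (hL k)
  intro y hy
  have hk : (0 : ℝ) < (2 : ℝ) ^ k := by positivity
  have h2 : C * (2 : ℝ) ^ k ≤ C' * (2 : ℝ) ^ k := mul_le_mul_of_nonneg_right h hk.le
  exact ⟨hy.1.trans h2, hy.2.trans h2⟩

/-- Module FWC. -/
theorem hFWC (hPPG : StPPG) (hWT : StWT) (hYB : StYB) : StFWC := by
  classical
  intro φ τ A p c hGr hA hGap hp1 hp3
  obtain ⟨C, C₂, hC, hC₂, hPP⟩ := hPPG φ τ A p c hGr hA hGap hp1 hp3
  refine ⟨max (2 * C) 32, max C₂ 2, ?_, ?_, ?_⟩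
  · exact le_trans (by norm_num) (le_max_right _ _)
  · exact le_trans (by norm_num) (le_max_right _ _)
  intro u t ρ m g G hu hm hg hg01 hLoc
  have hu2 : 2 ≤ u := by
    have h1 : 2 * (t + ρ + 1) ≤ max C₂ 2 * (t + ρ + 1) := Nat.mul_le_mul_right _ (le_max_right _ _)
    omega
  have huC : C₂ * (t + ρ + 1) ≤ u :=
    le_trans (Nat.mul_le_mul_right _ (le_max_left _ _)) hu
  have hm0 : (0 : ℝ) < m := by linarith
  have hsl : ∀ j, |sl τ u j| ≤ 1 := fun j => hGr.1 _
  set η : ℝ := (2 : ℝ) ^ (-((ρ : ℤ) + 1)) with hη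
  have hη0 : 0 < η := by rw [hη]; positivity
  -- the maximal differences
  set D : ℤ → ℕ → Pl → ℝ≥0∞ := fun k j x =>
    MD (sl τ u j) (ce c φ u j) (mm τ u j) (mp τ u j)
      (10000 * (Wt τ u (m / 8) (sl τ u j) + (ρ + 1))) k g x with hD
  have hDm : ∀ k j, Measurable (D k j) := fun k j => meas_MD_FWC hYB (hsl j) _ _ _ _ k hg
  -- the second set
  set S2 : ℤ → Set Pl := fun k => {x | x ∈ G ∧ ∃ a < 2 ^ u, ∃ b < 2 ^ u, sl τ u a ≠ sl τ u b ∧
        ∀ i ∈ Finset.Icc 1 41,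
          (2 : ℝ) ^ (-((ρ : ℤ) + 1)) / 2 ≤
            |Zc c φ τ u (i * ga (sl τ u a) (sl τ u b) (ρ + 1)) k a g x| ∧
          (2 : ℝ) ^ (-((ρ : ℤ) + 1)) / 2 ≤
            |Zc c φ τ u (i * ga (sl τ u a) (sl τ u b) (ρ + 1)) k b g x|} with hS2
  set S1 : ℤ → Set Pl := fun k => {x | ENNReal.ofReal (m * η ^ 2 / 8) ≤
    ∑ j ∈ Finset.range (2 ^ u), D k j x ^ 2} with hS1
  have hsub : ∀ k : ℤ, {x | x ∈ G ∧ m ≤ ((Hh c φ τ u ρ k g x).ncard : ℝ)} ⊆ S1 k ∪ S2 k := by
    rintro k x ⟨hxG, hxm⟩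
    set HF : Finset ℕ := (Finset.range (2 ^ u)).filter (fun j => η ≤ |Zc c φ τ u 0 k j g x|)
      with hHF
    have hcard : ((Hh c φ τ u ρ k g x).ncard : ℝ) = HF.card := by
      have : Hh c φ τ u ρ k g x = (HF : Set ℕ) := by
        ext j
        simp [Hh, hHF, hη]
      rw [this, Set.ncard_coe_finset]
    rw [hcard] at hxm
    set B : Finset ℕ := HF.filter (fun j => ENNReal.ofReal (η / 2) ≤ D k j x) with hB
    set P : Finset ℕ := HF.filter (fun j => ¬ ENNReal.ofReal (η / 2) ≤ D k j x) with hP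
    have hBP : (B.card : ℝ) + P.card = HF.card := by
      have := Finset.card_filter_add_card_filter_not (s := HF)
        (fun j => ENNReal.ofReal (η / 2) ≤ D k j x)
      exact_mod_cast this
    by_cases hBm : m / 2 ≤ (B.card : ℝ)
    · left
      change ENNReal.ofReal (m * η ^ 2 / 8) ≤ ∑ j ∈ Finset.range (2 ^ u), D k j x ^ 2
      have hBsub : B ⊆ Finset.range (2 ^ u) :=
        (Finset.filter_subset _ _).trans (Finset.filter_subset _ _)
      calc ENNReal.ofReal (m * η ^ 2 / 8)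
          ≤ ENNReal.ofReal ((B.card : ℝ) * (η / 2) ^ 2) := by
            apply ENNReal.ofReal_le_ofReal
            nlinarith [mul_le_mul_of_nonneg_right hBm (sq_nonneg (η / 2))]
        _ = (B.card : ℝ≥0∞) * ENNReal.ofReal (η / 2) ^ 2 := by
            rw [ENNReal.ofReal_mul (Nat.cast_nonneg _), ENNReal.ofReal_natCast,
              ENNReal.ofReal_pow (half_pos hη0).le]
        _ = ∑ _j ∈ B, ENNReal.ofReal (η / 2) ^ 2 := by
            rw [Finset.sum_const, nsmul_eq_mul]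
        _ ≤ ∑ j ∈ B, D k j x ^ 2 := by
            refine Finset.sum_le_sum fun j hj => ?_
            exact pow_le_pow_left' (Finset.mem_filter.mp hj).2 2
        _ ≤ ∑ j ∈ Finset.range (2 ^ u), D k j x ^ 2 :=
            Finset.sum_le_sum_of_subset hBsub
    · right
      have hPm : m / 2 ≤ (P.card : ℝ) := by linarith [not_le.mp hBm]
      have hPr : ∀ j ∈ P, j < 2 ^ u ∧ η ≤ |Zc c φ τ u 0 k j g x| ∧
          D k j x < ENNReal.ofReal (η / 2) := by
        intro j hj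
        have h1 := Finset.mem_filter.mp hj
        have h2 := Finset.mem_filter.mp h1.1
        exact ⟨Finset.mem_range.mp h2.1, h2.2, not_le.mp h1.2⟩
      -- persistence
      have hpers : ∀ j ∈ P, ∀ w ≤ 10000 * (Wt τ u (m / 8) (sl τ u j) + (ρ + 1)),
          η / 2 ≤ |Zc c φ τ u w k j g x| := by
        intro j hj w hw
        obtain ⟨_, h2, h3⟩ := hPr j hj
        have h4 : ‖Z (sl τ u j) (ce c φ u j) (mm τ u j) (mp τ u j) ((2 : ℝ) ^ w) k g x -
            Z (sl τ u j) (ce c φ u j) (mm τ u j) (mp τ u j) ((2 : ℝ) ^ 0) k g x‖ₑ ≤ D k j x := by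
          rw [hD]
          unfold MD
          exact Finset.le_sup (f := fun w =>
            ‖Z (sl τ u j) (ce c φ u j) (mm τ u j) (mp τ u j) ((2 : ℝ) ^ w) k g x -
            Z (sl τ u j) (ce c φ u j) (mm τ u j) (mp τ u j) ((2 : ℝ) ^ 0) k g x‖ₑ)
            (Finset.mem_range.mpr (Nat.lt_succ_of_le hw))
        have h5 := lt_of_le_of_lt h4 h3
        rw [Real.enorm_eq_ofReal_abs, ENNReal.ofReal_lt_ofReal_iff (by positivity)] at h5
        have h6 : |Zc c φ τ u w k j g x - Zc c φ τ u 0 k j g x| < η / 2 := h5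
        have h7 := abs_sub_abs_le_abs_sub (Zc c φ τ u 0 k j g x) (Zc c φ τ u w k j g x)
        rw [abs_sub_comm] at h7
        linarith
      -- few neighbours
      have hnn : ∀ j ∈ P, ((P.filter (fun j' => |sl τ u j' - sl τ u j| ≤
          (2 : ℝ) ^ (-((Wt τ u (m / 8) (sl τ u j) + 1 : ℕ) : ℤ)))).card : ℝ) < m / 8 := by
        intro j hj
        obtain ⟨hW1, _⟩ := hWT φ τ A p hGr hA hGap hp1 u (m / 8) (sl τ u j) (by omega) (by linarith)
        by_contra hcon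
        have h1 := not_lt.mp hcon
        have h2 : ((P.filter (fun j' => |sl τ u j' - sl τ u j| ≤
          (2 : ℝ) ^ (-((Wt τ u (m / 8) (sl τ u j) + 1 : ℕ) : ℤ)))).card : ℝ) ≤
            (nn τ u (sl τ u j) (Wt τ u (m / 8) (sl τ u j) + 1) : ℝ) := by
          unfold nn
          have hfin : {j' : ℕ | j' < 2 ^ u ∧ |sl τ u j' - sl τ u j| ≤
              (2 : ℝ) ^ (-((Wt τ u (m / 8) (sl τ u j) + 1 : ℕ) : ℤ))}.Finite :=
            (Set.finite_lt_nat (2 ^ u)).subset fun j' hj' => hj'.1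
          rw [← Set.ncard_coe_finset]
          have hsub : ((P.filter (fun j' => |sl τ u j' - sl τ u j| ≤
              (2 : ℝ) ^ (-((Wt τ u (m / 8) (sl τ u j) + 1 : ℕ) : ℤ))) : Finset ℕ) : Set ℕ) ⊆
              {j' : ℕ | j' < 2 ^ u ∧ |sl τ u j' - sl τ u j| ≤
              (2 : ℝ) ^ (-((Wt τ u (m / 8) (sl τ u j) + 1 : ℕ) : ℤ))} := fun j' hj' => by
            have hj'' := Finset.mem_filter.mp (Finset.mem_coe.mp hj')
            exact ⟨(hPr j' hj''.1).1, hj''.2⟩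
          exact Nat.cast_le.mpr (Set.ncard_le_ncard hsub hfin)
        have h3 := hW1 (Wt τ u (m / 8) (sl τ u j) + 1) (h1.trans h2)
        omega
      obtain ⟨j, hj, j', hj', hfar, hfar'⟩ := pair_FWC P (sl τ u)
        (fun j => Wt τ u (m / 8) (sl τ u j)) m hm0 hPm hnn
      have hne : sl τ u j ≠ sl τ u j' := by
        intro he
        rw [he, sub_self, abs_zero] at hfar
        have : (0 : ℝ) < (2 : ℝ) ^ (-((Wt τ u (m / 8) (sl τ u j') + 1 : ℕ) : ℤ)) := by positivity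
        exact absurd hfar (not_lt.mpr this.le)
      rw [abs_sub_comm] at hfar hfar'
      have hA1 := Aa_le_FWC hfar
      have hA2 := Aa_le_FWC hfar'
      refine ⟨hxG, j, (hPr j hj).1, j', (hPr j' hj').1, hne, ?_⟩
      intro i hi
      have hi41 : i ≤ 41 := (Finset.mem_Icc.mp hi).2
      have hga : ∀ W : ℕ, Aa (sl τ u j) (sl τ u j') ≤ W + 1 →
          i * ga (sl τ u j) (sl τ u j') (ρ + 1) ≤ 10000 * (W + (ρ + 1)) := by
        intro W hW
        unfold ga
        calc i * (16 * (Aa (sl τ u j) (sl τ u j') + (ρ + 1) + 10))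
            ≤ 41 * (16 * (Aa (sl τ u j) (sl τ u j') + (ρ + 1) + 10)) := Nat.mul_le_mul_right _ hi41
          _ ≤ 10000 * (W + (ρ + 1)) := by omega
      exact ⟨hpers j hj _ (hga _ hA1), hpers j' hj' _ (hga _ hA2)⟩
  -- Markov
  have hε0 : ENNReal.ofReal (m * η ^ 2 / 8) ≠ 0 := by
    rw [Ne, ENNReal.ofReal_eq_zero, not_le]; positivity
  have hη2 : η ^ 2 = 1 / (4 * (4 : ℝ) ^ ρ) := by
    rw [hη, zpow_neg, zpow_add_one₀ (by norm_num), zpow_natCast, inv_pow, mul_pow, ← pow_mul,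
      mul_comm ρ 2, pow_mul]
    norm_num
    ring
  have hMark : ∀ k : ℤ, volume (S1 k) ≤ ENNReal.ofReal (32 * (4 : ℝ) ^ ρ / m) *
      ∑ j ∈ Finset.range (2 ^ u), ∫⁻ x, D k j x ^ 2 := by
    intro k
    have h1 := meas_ge_le_lintegral_div (μ := (volume : Measure Pl))
      (f := fun x => ∑ j ∈ Finset.range (2 ^ u), D k j x ^ 2)
      (Finset.measurable_sum _ fun j _ => (hDm k j).pow_const 2).aemeasurable hε0
      ENNReal.ofReal_ne_top
    refine h1.trans (le_of_eq ?_)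
    rw [lintegral_finsetSum _ fun j _ => (hDm k j).pow_const 2, ENNReal.div_eq_inv_mul,
      ← ENNReal.ofReal_inv_of_pos (by positivity)]
    congr 2
    rw [hη2]
    field_simp
    norm_num
  have hp0 : (0 : ℝ) ≤ p := by linarith
  have hPPk := hPP u u t ρ g g G hu2 le_rfl huC hg hg hg01 hg01
    (fun x hx => loc_mono_FWC (by
      calc C ≤ 2 * C := by linarith
        _ ≤ max (2 * C) 32 := le_max_left _ _) (hLoc x hx))
  have hnum : (2 : ℝ) ^ (-(u : ℝ)) ≤ (2 : ℝ) ^ (-((u : ℝ) / 4)) * (2 : ℝ) ^ (p * u) := by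
    rw [← Real.rpow_add (by norm_num)]
    apply Real.rpow_le_rpow_of_exponent_le (by norm_num)
    have : (0 : ℝ) ≤ u := Nat.cast_nonneg u
    nlinarith
  calc ∑' k : ℤ, volume {x | x ∈ G ∧ m ≤ ((Hh c φ τ u ρ k g x).ncard : ℝ)}
      ≤ ∑' k : ℤ, (volume (S1 k) + volume (S2 k)) :=
        ENNReal.tsum_le_tsum fun k => (measure_mono (hsub k)).trans (measure_union_le _ _)
    _ = (∑' k : ℤ, volume (S1 k)) + ∑' k : ℤ, volume (S2 k) := ENNReal.tsum_add
    _ ≤ ENNReal.ofReal (max (2 * C) 32 * (4 : ℝ) ^ ρ / m) * BU c φ τ (m / 8) (ρ + 1) u g +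
        ENNReal.ofReal (max (2 * C) 32 * (2 : ℝ) ^ (-((u : ℝ) / 4)) * (2 : ℝ) ^ (p * u)) *
          ∫⁻ x, ‖g x‖ₑ ^ 2 := by
        refine add_le_add ?_ ?_
        · calc (∑' k : ℤ, volume (S1 k))
              ≤ ∑' k : ℤ, ENNReal.ofReal (32 * (4 : ℝ) ^ ρ / m) *
                  ∑ j ∈ Finset.range (2 ^ u), ∫⁻ x, D k j x ^ 2 :=
                ENNReal.tsum_le_tsum hMark
            _ = ENNReal.ofReal (32 * (4 : ℝ) ^ ρ / m) * BU c φ τ (m / 8) (ρ + 1) u g := by
                rw [ENNReal.tsum_mul_left]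
                rfl
            _ ≤ _ := by
                gcongr
                exact le_max_right _ _
        · refine hPPk.trans ?_
          rw [← add_mul]
          gcongr
          rw [← ENNReal.ofReal_add (by positivity) (by positivity)]
          apply ENNReal.ofReal_le_ofReal
          have h1 : (0 : ℝ) ≤ (2 : ℝ) ^ (-((u : ℝ) / 4)) * (2 : ℝ) ^ (p * u) := by positivity
          have h2 : C * (2 : ℝ) ^ (-(u : ℝ)) ≤
              C * ((2 : ℝ) ^ (-((u : ℝ) / 4)) * (2 : ℝ) ^ (p * u)) :=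
            mul_le_mul_of_nonneg_left hnum (by linarith)
          have h3 : 2 * C * ((2 : ℝ) ^ (-((u : ℝ) / 4)) * (2 : ℝ) ^ (p * u)) ≤
              max (2 * C) 32 * ((2 : ℝ) ^ (-((u : ℝ) / 4)) * (2 : ℝ) ^ (p * u)) :=
            mul_le_mul_of_nonneg_right (le_max_left _ _) h1
          linarith

end Pool.Agent.Helper30.EQ
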